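import Pool.Agent.Q281.KG.NoRank

/-!
# A metrizably-ended torsion-free group without finite Kurosh rank

Answer to Q1: **no**.  Let `G = ⟨a₀, a₁, …, b₀, b₁, … | aₘ = aₘ₊₁² bₘ²⟩`, a group of the same kind as
Kurosh's group.  It is the union of the free groups on `aₘ, b₀, b₁, …`, hence torsion-free.

* If `A ⊆ G` is almost invariant and `A a₀ = A` then `A = ∅` or `A = G`: from `A aₘ = A` and
  `aₘ = a² b²` (`a = aₘ₊₁`, `b = bₘ`) the finite sets `A ∆ A a`, `A ∆ A b` form a closed chain in a
  Cayley forest, so they are empty.  Hence `A ↦ A ∆ A a₀` is at most two to one, `P_G(G)` is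
  countable, and the space of ends is metrizable.
* `G ≅ G * ℤ`; a torsion-free freely indecomposable non-cyclic subgroup of `G` is conjugate into the
  factor `G` (Kurosh; we use the Bass-Serre theory of the starting module
  `Pool.Agent.H599R3.RH`), again and again, so it dies in the quotient `(ℤ/2)^(b₀, b₁, …)`.  If `G`
  were a free product of `n` freely indecomposable groups, `(ℤ/2)^(n+1)` would be generated by `n`
  elements.
-/

set_option autoImplicit false

namespace Pool.Agent.Results.MP_879d44_al.KuroshType

/-- The Boolean algebra `P_G(G)` of the subsets `A` of `G` such that `A ∆ A g` is finite for every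
`g`. -/
def P (G : Type) [Group G] : Type :=
  {A : Set G // ∀ g : G, (symmDiff A ((fun x => x * g) '' A)).Finite}

/-- `χ` is a homomorphism of Boolean algebras `P_G(G) → {0, 1}` which is zero on the finite sets, that
is, a point of the Stone space of the quotient of `P_G(G)` by the ideal of finite subsets. -/
structure IsEnd {G : Type} [Group G] (χ : P G → Bool) : Prop where
  compl : ∀ A B : P G, B.1 = A.1ᶜ → χ B = !(χ A)
  inter : ∀ A B C : P G, C.1 = A.1 ∩ B.1 → χ C = (χ A && χ B)
  finite : ∀ A : P G, A.1.Finite → χ A = false

/-- The space of ends: the Stone space of the quotient of `P_G(G)` by the ideal of finite subsets, with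
the topology of pointwise convergence. -/
def Ends (G : Type) [Group G] : Type := {χ : P G → Bool // IsEnd χ}

instance (G : Type) [Group G] : TopologicalSpace (Ends G) :=
  inferInstanceAs (TopologicalSpace {χ : P G → Bool // IsEnd χ})

/-- `G` is freely indecomposable: nontrivial and not a free product of two nontrivial groups. -/
def FreelyIndecomposable (G : Type) [Group G] : Prop :=
  Nontrivial G ∧ ¬ ∃ (A B : Type) (_ : Group A) (_ : Group B), Nontrivial A ∧ Nontrivial B ∧
    Nonempty (G ≃* Monoid.Coprod A B)

/-- `G` has finite Kurosh rank: it is isomorphic to a free product of finitely many freely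
indecomposable groups. -/
def FiniteKuroshRank (G : Type) [Group G] : Prop :=
  ∃ (n : ℕ) (H : Fin n → Type) (_ : ∀ i, Group (H i)), (∀ i, FreelyIndecomposable (H i)) ∧
    Nonempty (G ≃* Monoid.CoprodI H)

/-- **Theorem.** There is a countable torsion-free group whose space of ends is metrizable (the Boolean
algebra `P_G(G)` itself is countable) but which does not have finite Kurosh rank. -/
theorem result : ∃ (G : Type) (_ : Group G), Countable G ∧
    (∀ g : G, g ≠ 1 → ∀ n : ℕ, n ≠ 0 → g ^ n ≠ 1) ∧
    TopologicalSpace.MetrizableSpace (Ends G) ∧ Countable (P G) ∧ ¬ FiniteKuroshRank G := by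
  have hP : Countable (P Pool.Agent.Q281.KG.Gam) :=
    Pool.Agent.Q281.KG.countable_aInv.to_subtype
  refine ⟨Pool.Agent.Q281.KG.Gam, inferInstance, inferInstance,
    Pool.Agent.Q281.KG.torsion_free, ?_, hP, ?_⟩
  · have h1 : SecondCountableTopology (P Pool.Agent.Q281.KG.Gam → Bool) := inferInstance
    have h2 : TopologicalSpace.MetrizableSpace (P Pool.Agent.Q281.KG.Gam → Bool) := inferInstance
    exact (Topology.IsEmbedding.subtypeVal
      (p := fun χ : P Pool.Agent.Q281.KG.Gam → Bool => IsEnd χ)).metrizableSpace
  · rintro ⟨n, H, iH, hH, ⟨e⟩⟩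
    exact Pool.Agent.Q281.KG.no_rank n H (fun i => (hH i).2) e

end Pool.Agent.Results.MP_879d44_al.KuroshType
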